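import Pool.Agent.helper82.LEQ.Spec

/-!
# Row lq:W3 (MP_e82547_al)
-/

set_option autoImplicit false

namespace LEQ

open QS (Lef EAb)

lemma W3_stb {G : Type} [Group G] (P₀ : Subgroup G) (h : G) (hP : Stb h P₀) :
    Stb h (Subgroup.normalizer (P₀ : Set G)) := by
  intro x
  rw [Subgroup.mem_normalizer_iff, Subgroup.mem_normalizer_iff]
  constructor
  · intro hx k
    have e1 : k ∈ P₀ ↔ h⁻¹ * k * h ∈ P₀ := by
      rw [hP (h⁻¹ * k * h)]
      have : h * (h⁻¹ * k * h) * h⁻¹ = k := by group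
      rw [this]
    have e2 := hP (x * (h⁻¹ * k * h) * x⁻¹)
    have e3 : h * (x * (h⁻¹ * k * h) * x⁻¹) * h⁻¹ = h * x * h⁻¹ * k * (h * x * h⁻¹)⁻¹ := by group
    rw [e3] at e2
    exact e1.trans ((hx _).trans e2)
  · intro hx k
    have e1 := hP k
    have e2 := hx (h * k * h⁻¹)
    have e3 : h * x * h⁻¹ * (h * k * h⁻¹) * (h * x * h⁻¹)⁻¹ = h * (x * k * x⁻¹) * h⁻¹ := by group
    rw [e3] at e2
    exact e1.trans (e2.trans (hP (x * k * x⁻¹)).symm)

lemma W3_grow {G : Type} [Group G] [Finite G] (p : ℕ) (hp : p.Prime) (P₀ P : Subgroup G)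
    (hP : IsPGroup p P) (hlt : P₀ < P) : P₀ < P ⊓ Subgroup.normalizer (P₀ : Set G) := by
  haveI : Fact p.Prime := ⟨hp⟩
  refine lt_of_le_of_ne (le_inf hlt.le Subgroup.le_normalizer) ?_
  intro heq
  have hnil : Group.IsNilpotent P := hP.isNilpotent
  have hnc : NormalizerCondition P := Group.normalizerCondition_of_isNilpotent
  have hH : P₀.subgroupOf P < ⊤ := by
    rw [lt_top_iff_ne_top, Ne, Subgroup.subgroupOf_eq_top]
    exact not_le_of_gt hlt
  obtain ⟨x, hx1, hx2⟩ := Set.exists_of_ssubset (hnc _ hH)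
  apply hx2
  show (x : G) ∈ P₀
  have hx3 : x ∈ Subgroup.normalizer ((P₀.subgroupOf P : Subgroup P) : Set P) := hx1
  rw [Subgroup.mem_normalizer_iff] at hx3
  rw [heq]
  refine ⟨x.2, ?_⟩
  show (x : G) ∈ Subgroup.normalizer (P₀ : Set G)
  rw [Subgroup.mem_normalizer_iff]
  intro k
  constructor
  · intro hk
    exact (hx3 ⟨k, hlt.le hk⟩).1 hk
  · intro hk
    have h1 : (x : G) * k * (x : G)⁻¹ ∈ P := hlt.le hk
    have h2 : k ∈ P := by
      have h3 := P.mul_mem (P.mul_mem (P.inv_mem x.2) h1) x.2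
      have h4 : (x : G)⁻¹ * ((x : G) * k * (x : G)⁻¹) * (x : G) = k := by group
      rw [h4] at h3
      exact h3
    exact (hx3 ⟨k, h2⟩).2 hk

theorem W3 (h1 : XC_stmt) : W3_stmt := by
  intro G _ _ p hp P₀ h hP₀ hst
  refine h1 (Subgroup G) (fun P => P₀ < P ∧ IsPGroup p P ∧ Stb h P)
    (fun P => P ≤ Subgroup.normalizer (P₀ : Set G))
    (fun P => P ⊓ Subgroup.normalizer (P₀ : Set G)) ?_ ?_ ?_ ?_
  · rintro P ⟨hlt, hpP, hsP⟩
    refine ⟨⟨W3_grow p hp P₀ P hpP hlt, hpP.to_le inf_le_left, ?_⟩, inf_le_right⟩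
    intro x
    exact and_congr (hsP x) (W3_stb P₀ h hst x)
  · intro P _
    exact inf_le_left
  · intro P _ hQ
    exact inf_eq_left.2 hQ
  · intro P P' _ _ hle
    exact inf_le_inf_right _ hle

end LEQ
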